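import Mathlib
import Pool.Agent.H13.R45.Fam
import Pool.Agent.H39.Q1.ChainG

set_option autoImplicit false
open Finset

/-! # Nodes and labels in the tile frame, in the charts of the marked corners -/

namespace Pool.Agent.H54.R45

open Pool.Agent.H75.Perc Pool.Agent.H75.TwoArm Pool.Agent.Q1 Pool.Agent.H33.Q1
open Pool.Agent.H75.Four hiding ev
open Pool.Agent.H69.Q1
open Pool.Agent.H74.R45 Pool.Agent.H13.Q1 Pool.Agent.H13.R45
open Pool.Agent.H39.Q1 (nd el cU cV cx cy VN av nd_el FarP)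

variable {w h x y : ℤ} {c : Bool} {g z p : ℤ × ℤ}

/-- the node of a grid point in the doubled grid -/
theorem nd_gp (hg : ev g = c) : nd c (gp g) = (g.1 - g.2, g.1 + g.2) := by
  obtain ⟨a, b⟩ := g
  cases c
  · rw [ev_false] at hg
    rw [H39.Q1.nd_false]
    unfold gp
    simp only [Prod.mk.injEq]; omega
  · rw [ev_true] at hg
    rw [H39.Q1.nd_true]
    unfold gp
    simp only [Prod.mk.injEq]; omega

theorem node_exists (c : Bool) (p : ℤ × ℤ) : ∃ g : ℤ × ℤ, ev g = c ∧ gp g = p := by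
  obtain ⟨p1, p2⟩ := p
  cases c
  · refine ⟨(p1 + p2 - 1, p2 - p1), ?_, ?_⟩
    · rw [ev_false]; omega
    · unfold gp; simp only [Prod.mk.injEq]; omega
  · refine ⟨(p1 + p2, p2 - p1), ?_, ?_⟩
    · rw [ev_true]; omega
    · unfold gp; simp only [Prod.mk.injEq]; omega

/-- the label of a step is the label of one of the four tiles at the grid point -/
theorem el_adj (hg : ev g = c) (hu : IsUnit4 (z - gp g)) :
    ∃ X Y, el c (gp g) z = lt (X, Y) ∧ (X = g.1 ∨ X = g.1 - 1) ∧ (Y = g.2 ∨ Y = g.2 - 1) := by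
  have h1 := (nd_el (c := c) hu).1
  rw [nd_gp hg] at h1
  have h2 := H39.Q1.el_odd (c := c) hu
  set l := el c (gp g) z with hl
  obtain ⟨X, Y, h3⟩ := exists_lt h2
  refine ⟨X, Y, h3, ?_⟩
  rw [h3] at h1
  unfold lt IsUnit4 at h1
  simp only [Prod.ext_iff, Prod.fst_sub, Prod.snd_sub] at h1
  omega

/-- the tiles at a grid point are next to it -/
theorem adj_unit (hg : ev g = c) {X Y : ℤ} (hX : X = g.1 ∨ X = g.1 - 1) (hY : Y = g.2 ∨ Y = g.2 - 1) :
    IsUnit4 (lt (X, Y) - nd c (gp g)) := by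
  rw [nd_gp hg]
  unfold lt IsUnit4
  simp only [Prod.ext_iff, Prod.fst_sub, Prod.snd_sub]
  omega

/-! ### The chart of the corner SW of the low form -/

theorem cU_low : cU 1 0 0 (lt (x, y)) = 2 * x + 1 := by
  unfold cU cx cy lt; simp only; ring

theorem cV_low : cV 1 0 0 (lt (x, y)) = 2 * y + 1 := by
  unfold cV cx cy lt; simp only; ring

theorem nU_low (hg : ev g = c) : cU 1 0 0 (nd c (gp g)) = 2 * g.1 := by
  rw [nd_gp hg]; unfold cU cx cy; simp only; ring

theorem nV_low (hg : ev g = c) : cV 1 0 0 (nd c (gp g)) = 2 * g.2 := by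
  rw [nd_gp hg]; unfold cV cx cy; simp only; ring

/-! ### The chart of the corner NE of the up form -/

theorem cU_up : cU (-1) (w - h + 1) (w + h - 1) (lt (x, y)) = 2 * (h - 1) - (2 * y + 1) := by
  unfold cU cx cy lt; simp only; ring

theorem cV_up : cV (-1) (w - h + 1) (w + h - 1) (lt (x, y)) = 2 * w - (2 * x + 1) := by
  unfold cV cx cy lt; simp only; ring

theorem nU_up (hg : ev g = c) :
    cU (-1) (w - h + 1) (w + h - 1) (nd c (gp g)) = 2 * (h - 1) - 2 * g.2 := by
  rw [nd_gp hg]; unfold cU cx cy; simp only; ring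

theorem nV_up (hg : ev g = c) :
    cV (-1) (w - h + 1) (w + h - 1) (nd c (gp g)) = 2 * w - 2 * g.1 := by
  rw [nd_gp hg]; unfold cV cx cy; simp only; ring

end Pool.Agent.H54.R45
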