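import Mathlib
import Pool.Agent.H54.R45.CnrA
import Pool.Agent.H13.R45.Mul

set_option autoImplicit false
open Finset

/-! # The marked corner SW of the lower form: `Cnr` and `CnrM` -/

namespace Pool.Agent.H54.R45

open Pool.Agent.H75.Perc Pool.Agent.H75.TwoArm Pool.Agent.Q1 Pool.Agent.H33.Q1
open Pool.Agent.H75.Four hiding ev
open Pool.Agent.H69.Q1
open Pool.Agent.H74.R45 Pool.Agent.H13.Q1 Pool.Agent.H13.R45
open Pool.Agent.H39.Q1

variable {w h m : ℤ} {O : Out w h} {S K B : Finset (ℤ × ℤ)} {g z p : ℤ × ℤ}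

/-- the region of the nodes of the extended layer of the left family -/
theorem VN_left (hm : 1 ≤ m) {Λ : Finset (ℤ × ℤ)}
    (hΛ : Λ ⊆ LbL w h m true) (hg : ev g = true) (hx : VN true Λ (TF (TTL w h) fmL true) bL (gp g)) :
    (0 ≤ g.1 ∧ g.1 ≤ m ∧ 0 ≤ g.2 ∧ g.2 ≤ h) ∨ (0 ≤ g.1 ∧ g.1 ≤ w ∧ -1 ≤ g.2 ∧ g.2 ≤ m) := by
  rcases hx with ⟨e, he, h1⟩ | ⟨q, hq, h1⟩
  · rw [TF_L_true] at he
    rw [(bL_left he).1] at h1
    obtain ⟨X, Y, rfl⟩ := exists_lt (odd_TiL he)
    rw [mem_TiL] at he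
    rw [pt_lt, add_zero] at h1
    have h2 := gp_inj (g := (X + 1, Y)) (g' := g) (by rw [hg, ev_true]; omega) h1
    subst h2
    left; simp only; omega
  · obtain ⟨X, Y, h2, h3, h4⟩ := el_adj hg hq
    rw [h2] at h1
    have h5 := hΛ h1
    unfold LbL LLL at h5
    rw [if_pos rfl, mem_union, mem_union, lt_mem_RT, lt_mem_RT, lt_mem_RT] at h5
    rcases h5 with (h5 | h5) | h5
    · left; omega
    · right; omega
    · right; omega

/-- the region of the nodes of the extended layer of the floor family -/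
theorem VN_floor (hm : 1 ≤ m) {Λ : Finset (ℤ × ℤ)}
    (hΛ : Λ ⊆ LbL w h m false) (hg : ev g = false)
    (hx : VN false Λ (TF (TTL w h) fmL false) bL (gp g)) :
    (0 ≤ g.1 ∧ g.1 ≤ m ∧ 0 ≤ g.2 ∧ g.2 ≤ h) ∨ (0 ≤ g.1 ∧ g.1 ≤ w ∧ 0 ≤ g.2 ∧ g.2 ≤ m) ∨
      (-1 ≤ g.1 ∧ g.1 ≤ 0 ∧ 1 ≤ g.2 ∧ g.2 ≤ h) := by
  rcases hx with ⟨e, he, h1⟩ | ⟨q, hq, h1⟩
  · rw [TF_L_false] at he
    rw [(bL_floor he).1] at h1
    obtain ⟨X, Y, rfl⟩ := exists_lt (odd_TiF he)
    rw [mem_TiF] at he
    rw [pt_lt] at h1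
    have h2 := gp_inj (g := (X + 1, Y + 1)) (g' := g) (by rw [hg, ev_false]; omega) h1
    subst h2
    right; left; simp only; omega
  · obtain ⟨X, Y, h2, h3, h4⟩ := el_adj hg hq
    rw [h2] at h1
    have h5 := hΛ h1
    unfold LbL LLL at h5
    rw [if_neg Bool.false_ne_true, mem_union, mem_union, lt_mem_RT, lt_mem_RT, lt_mem_RT] at h5
    rcases h5 with (h5 | h5) | h5
    · left; omega
    · right; left; omega
    · right; right; omega

/-- available labels of the left family -/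
theorem av_left {X Y : ℤ}
    (hav : av (RT 0 w 0 h) (WT w h 0 O.Wo ∪ S) (TTL w h) fmL id (WlL h S K) true (lt (X, Y))) :
    (0 ≤ X ∧ X < w ∧ 0 ≤ Y ∧ Y < h) ∨ (Y = -1 ∧ 0 ≤ X ∧ X < w) ∨
      (X = w ∧ -1 ≤ Y ∧ Y < h) ∨ (X = w + 1 ∧ -1 ≤ Y ∧ Y < h) ∨
      ¬ (-2 ≤ X ∧ X < w + 2 ∧ -2 ≤ Y ∧ Y ≤ h) := by
  unfold av at hav
  rw [if_pos (show id true = true from rfl), mem_union, mem_union, lt_mem_RT, mem_sdiff, TF_L_true, mem_TTL, mem_TiL,
    mem_sdiff, mem_union, mem_W_low] at hav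
  rcases hav with (h1 | h1) | ⟨(h1 | h1 | h1 | h1 | h1) | h1, h2⟩
  · exact Or.inl h1
  · right; left; omega
  · right; right; left; omega
  · exfalso
    apply h2
    unfold WlL
    rw [if_pos rfl, mem_union, lt_mem_RT]
    left; omega
  · right; right; right; left; omega
  · right; left; omega
  · right; right; right; right
    exact O.far _ _ h1
  · exfalso
    apply h2
    unfold WlL
    rw [if_pos rfl, mem_union]
    right; exact h1

/-- labels which are not available for the floor family -/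
theorem av_floor {X Y : ℤ}
    (hav : av (RT 0 w 0 h) (WT w h 0 O.Wo ∪ S) (TTL w h) fmL id (WlL h S K) false (lt (X, Y))) :
    ¬ (X = w ∧ -1 ≤ Y ∧ Y < h) ∧ ¬ (X = -2 ∧ -1 ≤ Y ∧ Y < h) ∧ ¬ (X = w + 1 ∧ -1 ≤ Y ∧ Y < h) ∧
      ¬ (Y = -1 ∧ 0 ≤ X ∧ X < w) ∧ ¬ (X = -1 ∧ Y = 0) ∧ ¬ (X = -1 ∧ Y = -1) := by
  unfold av at hav
  rw [if_neg (show ¬ (id false = true) from Bool.false_ne_true), mem_union, mem_union, mem_union, TF_L_false, mem_TiF, mem_W_low] at hav
  obtain ⟨hA, hB⟩ := not_or.1 hav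
  obtain ⟨h1, h2⟩ := not_or.1 hA
  obtain ⟨h3, h4⟩ := not_or.1 hB
  refine ⟨fun h5 => h1 (Or.inl h5), fun h5 => h1 (Or.inr (Or.inl h5)),
    fun h5 => h1 (Or.inr (Or.inr (Or.inl h5))), ?_, ?_, ?_⟩
  · rintro ⟨h5, h6, h7⟩
    rcases Int.emod_two_eq_zero_or_one X with h8 | h8
    · exact h3 ⟨h5, h6, h7, h8⟩
    · exact h1 (Or.inr (Or.inr (Or.inr (Or.inl ⟨h5, by omega, h7, h8⟩))))
  · rintro ⟨rfl, rfl⟩
    apply h4
    unfold WlL
    rw [if_neg Bool.false_ne_true, mem_union, mem_insert, mem_sdiff, mem_singleton]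
    exact Or.inr (Or.inr ⟨rfl, h2⟩)
  · rintro ⟨rfl, rfl⟩
    apply h4
    unfold WlL
    rw [if_neg Bool.false_ne_true, mem_union, mem_insert]
    exact Or.inr (Or.inl rfl)

/-- **The marked corner SW of the lower form.** -/
theorem cnr_low (hm : 1 ≤ m) (hmw : m < w) (hmh : m < h) (hB : LLL w h m ⊆ B) :
    Cnr (WT w h 0 O.Wo ∪ S) (RT 0 w 0 h) B (TTL w h) fmL id (WlL h S K) (LaL w h m) (LbL w h m)
      bL oL (LLL w h m) true false 1 0 0 m (2 * w) (2 * h) where
  hε := Or.inl rfl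
  hh := hm
  Um0 := by omega
  Vm0 := by omega
  col := rfl
  LB := hB
  Lr := by
    intro l hl
    unfold LLL at hl
    have ho : (l.1 + l.2) % 2 = 1 := by
      rcases mem_union.1 hl with h1 | h1 <;> exact odd_RT h1
    obtain ⟨X, Y, rfl⟩ := exists_lt ho
    rw [mem_union, lt_mem_RT, lt_mem_RT] at hl
    rw [cU_low, cV_low]
    omega
  laL := by
    unfold LaL LLL; rw [if_pos rfl]; exact subset_union_left
  laF := by
    unfold LaL LLL; rw [if_neg Bool.false_ne_true]; exact subset_union_right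
  LΛL := by
    unfold LbL; rw [if_pos rfl]; exact subset_union_left
  LΛF := by
    unfold LbL; rw [if_neg Bool.false_ne_true]; exact subset_union_left
  ΛL := by
    intro l hl
    unfold LbL LLL at hl
    rw [if_pos rfl] at hl
    have ho : (l.1 + l.2) % 2 = 1 := by
      rcases mem_union.1 hl with h1 | h1
      · rcases mem_union.1 h1 with h2 | h2 <;> exact odd_RT h2
      · exact odd_RT h1
    obtain ⟨X, Y, rfl⟩ := exists_lt ho
    rw [mem_union, mem_union, lt_mem_RT, lt_mem_RT, lt_mem_RT] at hl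
    rw [cU_low, cV_low]
    omega
  ΛF := by
    intro l hl
    unfold LbL LLL at hl
    rw [if_neg Bool.false_ne_true] at hl
    have ho : (l.1 + l.2) % 2 = 1 := by
      rcases mem_union.1 hl with h1 | h1
      · rcases mem_union.1 h1 with h2 | h2 <;> exact odd_RT h2
      · exact odd_RT h1
    obtain ⟨X, Y, rfl⟩ := exists_lt ho
    rw [mem_union, mem_union, lt_mem_RT, lt_mem_RT, lt_mem_RT] at hl
    rw [cU_low, cV_low]
    omega
  dL := by
    rw [TF_L_true, disjoint_left]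
    intro l h1 h2
    obtain ⟨X, Y, rfl⟩ := exists_lt (odd_TiL h2)
    unfold LbL LLL at h1
    rw [if_pos rfl, mem_union, mem_union, lt_mem_RT, lt_mem_RT, lt_mem_RT] at h1
    rw [mem_TiL] at h2
    omega
  dF := by
    rw [TF_L_false, disjoint_left]
    intro l h1 h2
    obtain ⟨X, Y, rfl⟩ := exists_lt (odd_TiF h2)
    unfold LbL LLL at h1
    rw [if_neg Bool.false_ne_true, mem_union, mem_union, lt_mem_RT, lt_mem_RT, lt_mem_RT] at h1
    rw [mem_TiF] at h2
    omega
  tL := by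
    intro e he
    rw [TF_L_true] at he
    obtain ⟨e1, e2⟩ := bL_left he
    rw [e1, e2]
    obtain ⟨X, Y, rfl⟩ := exists_lt (odd_TiL he)
    rw [mem_TiL] at he
    have ho : (X + Y) % 2 = 1 := by omega
    have g1 : ev (X + 1, Y) = true := ev_true.2 (by omega)
    have g2 : ev (X, Y + 1) = true := ev_true.2 (by omega)
    rw [pt_lt, pt_lt, add_zero, add_zero]
    show _ ∧ _ = el true _ _ ∧ cU 1 0 0 (nd true _) = 0 ∧ 1 ≤ cV 1 0 0 (nd true _) ∧ _ ∧
      cU 1 0 0 (nd true _) = -2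
    rw [nU_low g1, nV_low g1, nU_low g2, cU_low, el_true]
    refine ⟨unit_neg' (vert_odd ho).1, ?_, ?_, ?_, ?_, ?_⟩
    · rw [← (vert_odd ho).2, add_comm]
    · simp only; omega
    · simp only; omega
    · omega
    · simp only; omega
  tLm := by
    intro e he
    rw [TF_L_true] at he
    obtain ⟨e1, e2⟩ := bL_left he
    rw [e1, e2]
    obtain ⟨X, Y, rfl⟩ := exists_lt (odd_TiL he)
    rw [mem_TiL] at he
    have g1 : ev (X + 1, Y) = true := ev_true.2 (by omega)
    have g2 : ev (X, Y + 1) = true := ev_true.2 (by omega)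
    rw [pt_lt, pt_lt, add_zero, add_zero]
    show cV 1 0 0 (nd true _) ≤ _ ∧ _ ∧ cV 1 0 0 (nd true _) ≤ _
    rw [nV_low g1, nV_low g2, cV_low]
    simp only
    omega
  tF := by
    intro e he
    rw [TF_L_false] at he
    obtain ⟨e1, e2⟩ := bL_floor he
    rw [e1, e2]
    obtain ⟨X, Y, rfl⟩ := exists_lt (odd_TiF he)
    rw [mem_TiF] at he
    have ho : (X + Y) % 2 = 1 := by omega
    have g1 : ev (X + 1, Y + 1) = false := ev_false.2 (by omega)
    have g2 : ev (X, Y) = false := ev_false.2 (by omega)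
    rw [pt_lt, pt_lt, add_zero, add_zero]
    show _ ∧ _ = el false _ _ ∧ cV 1 0 0 (nd false _) = 0 ∧ _ ∧ cV 1 0 0 (nd false _) = -2
    rw [nV_low g1, nV_low g2, cV_low, el_false]
    refine ⟨unit_neg' (face_odd ho).1, ?_, ?_, ?_, ?_⟩
    · rw [add_comm, (face_odd ho).2, add_sub_cancel_right]
    · simp only; omega
    · omega
    · simp only; omega
  tFm := by
    intro e he
    rw [TF_L_false] at he
    obtain ⟨e1, e2⟩ := bL_floor he
    rw [e1, e2]
    obtain ⟨X, Y, rfl⟩ := exists_lt (odd_TiF he)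
    rw [mem_TiF] at he
    have g1 : ev (X + 1, Y + 1) = false := ev_false.2 (by omega)
    have g2 : ev (X, Y) = false := ev_false.2 (by omega)
    have w2 := O.w2
    rw [pt_lt, pt_lt, add_zero, add_zero]
    show cU 1 0 0 (nd false _) ≤ _ ∧ _ ∧ cU 1 0 0 (nd false _) ≤ _
    rw [nU_low g1, nU_low g2, cU_low]
    simp only
    omega
  exL := by
    intro x y hu hx hav
    obtain ⟨g, hg, rfl⟩ := node_exists true x
    obtain ⟨X, Y, h2, h3, h4⟩ := el_adj hg hu
    have hr := VN_left hm (Subset.refl _) hg hx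
    change av _ _ _ _ _ _ _ (el true (gp g) y) at hav
    change el true (gp g) y ∈ _ ∨ ∃ q, IsUnit4 (q - nd true (gp g)) ∧ _
    rw [h2] at hav ⊢
    have ha := av_left hav
    have hw := O.hw
    by_cases hin : lt (X, Y) ∈ LbL w h m true
    · exact Or.inl hin
    · right
      refine ⟨lt (X, Y), adj_unit hg h3 h4, ?_⟩
      unfold LbL LLL at hin
      rw [if_pos rfl, mem_union, mem_union, lt_mem_RT, lt_mem_RT, lt_mem_RT] at hin
      unfold FarP
      rw [cU_low, cV_low]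
      omega
  exF := by
    intro x y hu hx hav
    obtain ⟨g, hg, rfl⟩ := node_exists false x
    obtain ⟨X, Y, h2, h3, h4⟩ := el_adj hg hu
    have hr := VN_floor hm (Subset.refl _) hg hx
    change av _ _ _ _ _ _ _ (el false (gp g) y) at hav
    change el false (gp g) y ∈ _ ∨ ∃ q, IsUnit4 (q - nd false (gp g)) ∧ _
    rw [h2] at hav ⊢
    have ha := av_floor hav
    have hw := O.hw
    have w2 := O.w2
    have hh2 := O.h2
    obtain ⟨g1, g2⟩ := g
    rw [ev_false] at hg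
    simp only at h3 h4 hr
    by_cases hin : lt (X, Y) ∈ LbL w h m false
    · exact Or.inl hin
    · right
      unfold LbL LLL at hin
      rw [if_neg Bool.false_ne_true, mem_union, mem_union, lt_mem_RT, lt_mem_RT, lt_mem_RT] at hin
      by_cases hX : X = -2
      · refine ⟨lt (-1, h), adj_unit (ev_false.2 hg) ?_ ?_, ?_⟩
        · simp only; omega
        · simp only; omega
        · unfold FarP
          rw [cU_low, cV_low]
          omega
      · refine ⟨lt (X, Y), adj_unit (ev_false.2 hg) h3 h4, ?_⟩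
        unfold FarP
        rw [cU_low, cV_low]
        omega

/-- **The marked corner SW of the lower form**, small layers. -/
theorem cnrM_low (hm : 1 ≤ m) (hmw : m < w) (hmh : m < h) :
    CnrM (WT w h 0 O.Wo ∪ S) (RT 0 w 0 h) (TTL w h) fmL id (WlL h S K) (LaL w h m) bL
      (LLL w h m) true false 1 0 0 m where
  laL := by
    intro l hl h1
    unfold LLL at hl
    have ho : (l.1 + l.2) % 2 = 1 := by
      rcases mem_union.1 hl with h1 | h1 <;> exact odd_RT h1
    obtain ⟨X, Y, rfl⟩ := exists_lt ho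
    rw [mem_union, lt_mem_RT, lt_mem_RT] at hl
    rw [cU_low] at h1
    unfold LaL
    rw [if_pos rfl, lt_mem_RT]
    omega
  laF := by
    intro l hl h1
    unfold LLL at hl
    have ho : (l.1 + l.2) % 2 = 1 := by
      rcases mem_union.1 hl with h1 | h1 <;> exact odd_RT h1
    obtain ⟨X, Y, rfl⟩ := exists_lt ho
    rw [mem_union, lt_mem_RT, lt_mem_RT] at hl
    rw [cV_low] at h1
    unfold LaL
    rw [if_neg Bool.false_ne_true, lt_mem_RT]
    omega
  fullL := by
    intro x h1 h2 h3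
    obtain ⟨g, hg, rfl⟩ := node_exists true x
    change cU 1 0 0 (nd true _) = 0 at h1
    change 1 ≤ cV 1 0 0 (nd true _) at h2
    change cV 1 0 0 (nd true _) ≤ _ at h3
    rw [nU_low hg] at h1
    rw [nV_low hg] at h2 h3
    obtain ⟨a, b⟩ := g
    rw [ev_true] at hg
    simp only at h1 h2 h3
    have hmem : lt (-1, b) ∈ TiL h 0 := mem_TiL.2 (by omega)
    refine ⟨lt (-1, b), by rw [TF_L_true]; exact hmem, ?_⟩
    rw [(bL_left hmem).1, pt_lt, add_zero]
    refine congrArg gp (Prod.ext ?_ ?_) <;> simp only <;> omega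
  fullF := by
    intro x h1 h2 h3
    obtain ⟨g, hg, rfl⟩ := node_exists false x
    change cV 1 0 0 (nd false _) = 0 at h1
    change 0 ≤ cU 1 0 0 (nd false _) at h2
    change cU 1 0 0 (nd false _) ≤ _ at h3
    rw [nV_low hg] at h1
    rw [nU_low hg] at h2 h3
    obtain ⟨a, b⟩ := g
    rw [ev_false] at hg
    simp only at h1 h2 h3
    have hmem : lt (a - 1, -1) ∈ TiF w := mem_TiF.2 (by omega)
    refine ⟨lt (a - 1, -1), by rw [TF_L_false]; exact hmem, ?_⟩
    rw [(bL_floor hmem).1, pt_lt]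
    refine congrArg gp (Prod.ext ?_ ?_) <;> simp only <;> omega
  exL := by
    intro x y hu hx hav
    obtain ⟨g, hg, rfl⟩ := node_exists true x
    obtain ⟨X, Y, h2, h3, h4⟩ := el_adj hg hu
    have hw := O.hw
    have hr : 0 ≤ g.1 ∧ g.1 ≤ m ∧ 0 ≤ g.2 ∧ g.2 ≤ h := by
      rcases hx with ⟨e, he, h1⟩ | ⟨q, hq, h1⟩
      · rw [TF_L_true] at he
        rw [(bL_left he).1] at h1
        obtain ⟨X, Y, rfl⟩ := exists_lt (odd_TiL he)
        rw [mem_TiL] at he
        rw [pt_lt, add_zero] at h1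
        have h2 := gp_inj (g := (X + 1, Y)) (g' := g) (by rw [hg, ev_true]; omega) h1
        subst h2
        simp only; omega
      · obtain ⟨X, Y, h2, h3, h4⟩ := el_adj (c := true) hg hq
        change el true (gp g) q ∈ _ at h1
        rw [h2] at h1
        unfold LaL at h1
        rw [if_pos rfl, lt_mem_RT] at h1
        omega
    change av _ _ _ _ _ _ _ (el true (gp g) y) at hav
    change el true (gp g) y ∈ _ ∨ 2 * m ≤ cU 1 0 0 (nd true (gp g)) ∨
      cV 1 0 0 (nd true (gp g)) = 0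
    rw [h2] at hav ⊢
    have ha := av_left hav
    unfold LaL
    rw [if_pos rfl, lt_mem_RT, nU_low hg, nV_low hg]
    omega
  exF := by
    intro x y hu hx hav
    obtain ⟨g, hg, rfl⟩ := node_exists false x
    obtain ⟨X, Y, h2, h3, h4⟩ := el_adj hg hu
    have hw := O.hw
    have hr : 0 ≤ g.1 ∧ g.1 ≤ w ∧ 0 ≤ g.2 ∧ g.2 ≤ m := by
      rcases hx with ⟨e, he, h1⟩ | ⟨q, hq, h1⟩
      · rw [TF_L_false] at he
        rw [(bL_floor he).1] at h1
        obtain ⟨X, Y, rfl⟩ := exists_lt (odd_TiF he)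
        rw [mem_TiF] at he
        rw [pt_lt] at h1
        have h2 := gp_inj (g := (X + 1, Y + 1)) (g' := g) (by rw [hg, ev_false]; omega) h1
        subst h2
        simp only; omega
      · obtain ⟨X, Y, h2, h3, h4⟩ := el_adj (c := false) hg hq
        change el false (gp g) q ∈ _ at h1
        rw [h2] at h1
        unfold LaL at h1
        rw [if_neg Bool.false_ne_true, lt_mem_RT] at h1
        omega
    change av _ _ _ _ _ _ _ (el false (gp g) y) at hav
    change el false (gp g) y ∈ _ ∨ 2 * m ≤ cV 1 0 0 (nd false (gp g)) ∨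
      (cU 1 0 0 (nd false (gp g)) = 0 ∧ 1 ≤ cV 1 0 0 (nd false (gp g)))
    rw [h2] at hav ⊢
    have ha := av_floor hav
    unfold LaL
    rw [if_neg Bool.false_ne_true, lt_mem_RT, nU_low hg, nV_low hg]
    obtain ⟨g1, g2⟩ := g
    rw [ev_false] at hg
    have w2 := O.w2
    simp only at h3 h4 hr ⊢
    omega

end Pool.Agent.H54.R45
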