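import Mathlib
import Pool.Agent.H54.R45.CnrA
import Pool.Agent.H13.R45.Mul

set_option autoImplicit false
open Finset

/-! # The marked corner NE of the upper form: `Cnr` and `CnrM` -/

namespace Pool.Agent.H54.R45

open Pool.Agent.H75.Perc Pool.Agent.H75.TwoArm Pool.Agent.Q1 Pool.Agent.H33.Q1
open Pool.Agent.H75.Four hiding ev
open Pool.Agent.H69.Q1
open Pool.Agent.H74.R45 Pool.Agent.H13.Q1 Pool.Agent.H13.R45
open Pool.Agent.H39.Q1

variable {w h m : ℤ} {O : Out w h} {S K B : Finset (ℤ × ℤ)} {g z p : ℤ × ℤ}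

/-- the region of the nodes of the extended layer of the ceiling family -/
theorem VN_ceil (w2 : w % 2 = 0) (hh2 : h % 2 = 0) (hm : 1 ≤ m) {Λ : Finset (ℤ × ℤ)}
    (hΛ : Λ ⊆ LbU w h m false) (hg : ev g = false)
    (hx : VN false Λ (TF (TTU w h) (fmU w) false) (bU w) (gp g)) :
    (w - m ≤ g.1 ∧ g.1 ≤ w ∧ -1 ≤ g.2 ∧ g.2 ≤ h - 1) ∨
      (0 ≤ g.1 ∧ g.1 ≤ w ∧ h - 1 - m ≤ g.2 ∧ g.2 ≤ h - 1) ∨
      (w ≤ g.1 ∧ g.1 ≤ w + 1 ∧ -1 ≤ g.2 ∧ g.2 ≤ h - 1) := by
  rcases hx with ⟨e, he, h1⟩ | ⟨q, hq, h1⟩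
  · rw [TF_U_false] at he
    rw [(bU_ceil he).1] at h1
    obtain ⟨X, Y, rfl⟩ := exists_lt (odd_TiU he)
    rw [mem_TiU] at he
    rw [pt_lt, add_zero, add_zero] at h1
    have h2 := gp_inj (g := (X, Y)) (g' := g) (by rw [hg, ev_false]; omega) h1
    subst h2
    right; left; simp only; omega
  · obtain ⟨X, Y, h2, h3, h4⟩ := el_adj hg hq
    rw [h2] at h1
    have h5 := hΛ h1
    unfold LbU LLU at h5
    rw [if_neg Bool.false_ne_true, mem_union, mem_union, lt_mem_RT, lt_mem_RT, lt_mem_RT] at h5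
    rcases h5 with (h5 | h5) | h5
    · left; omega
    · right; left; omega
    · right; right; omega

/-- the region of the nodes of the extended layer of the right family -/
theorem VN_right (w2 : w % 2 = 0) (hm : 1 ≤ m) {Λ : Finset (ℤ × ℤ)}
    (hΛ : Λ ⊆ LbU w h m true) (hg : ev g = true)
    (hx : VN true Λ (TF (TTU w h) (fmU w) true) (bU w) (gp g)) :
    (w - m ≤ g.1 ∧ g.1 ≤ w ∧ -1 ≤ g.2 ∧ g.2 ≤ h - 1) ∨
      (0 ≤ g.1 ∧ g.1 ≤ w ∧ h - 1 - m ≤ g.2 ∧ g.2 ≤ h - 1) ∨
      (0 ≤ g.1 ∧ g.1 ≤ w - 1 ∧ h - 1 ≤ g.2 ∧ g.2 ≤ h) := by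
  rcases hx with ⟨e, he, h1⟩ | ⟨q, hq, h1⟩
  · rw [TF_U_true] at he
    rw [(bU_right he).1] at h1
    obtain ⟨X, Y, rfl⟩ := exists_lt (odd_TiR he)
    rw [mem_TiR] at he
    rw [pt_lt, add_zero] at h1
    have h2 := gp_inj (g := (X, Y + 1)) (g' := g) (by rw [hg, ev_true]; omega) h1
    subst h2
    left; simp only; omega
  · obtain ⟨X, Y, h2, h3, h4⟩ := el_adj hg hq
    rw [h2] at h1
    have h5 := hΛ h1
    unfold LbU LLU at h5
    rw [if_pos rfl, mem_union, mem_union, lt_mem_RT, lt_mem_RT, lt_mem_RT] at h5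
    rcases h5 with (h5 | h5) | h5
    · left; omega
    · right; left; omega
    · right; right; omega

/-- available labels of the right family -/
theorem av_right (hS : S ⊆ RRU w h) {X Y : ℤ}
    (hav : av (RT 0 w (-1) (h - 1)) (WT w h h O.Wo ∪ S) (TTU w h) (fmU w) id (WlU w h S K) true
      (lt (X, Y))) :
    (0 ≤ X ∧ X < w ∧ -1 ≤ Y ∧ Y < h - 1) ∨ (Y = h - 1 ∧ 0 ≤ X ∧ X < w - 1) ∨
      (X = -1 ∧ -1 ≤ Y ∧ Y < h - 1) ∨ (X = -2 ∧ -1 ≤ Y ∧ Y < h) ∨
      ¬ (-2 ≤ X ∧ X < w + 2 ∧ -2 ≤ Y ∧ Y ≤ h) := by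
  have hw := O.hw
  have w2 := O.w2
  unfold av at hav
  rw [if_pos (show id true = true from rfl), mem_union, mem_union, lt_mem_RT, mem_sdiff, TF_U_true,
    mem_TTU, mem_TiR, mem_sdiff, mem_union, mem_W_up] at hav
  rcases hav with (h1 | h1) | ⟨(h1 | h1 | h1 | h1 | h1 | h1) | h1, h2⟩
  · exact Or.inl h1
  · right; left; omega
  · right; right; left; omega
  · exfalso
    apply h2
    obtain ⟨rfl, rfl⟩ := h1
    unfold WlU
    rw [if_pos rfl, mem_union, mem_insert]
    exact Or.inr (Or.inl rfl)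
  · right; right; right; left; omega
  · exfalso
    apply h2
    unfold WlU
    rw [if_pos rfl, mem_union, lt_mem_RT]
    left; omega
  · right; left; omega
  · right; right; right; right
    exact O.far _ _ h1
  · obtain ⟨h3 | h3, h4⟩ := mem_RRU.1 (hS h1)
    · right; left; omega
    · exfalso
      apply h2
      subst h3 h4
      unfold WlU
      rw [if_pos rfl, mem_union, mem_insert, mem_inter, mem_singleton]
      exact Or.inr (Or.inr ⟨h1, rfl⟩)

/-- labels which are not available for the ceiling family -/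
theorem av_ceil {X Y : ℤ}
    (hav : av (RT 0 w (-1) (h - 1)) (WT w h h O.Wo ∪ S) (TTU w h) (fmU w) id (WlU w h S K) false
      (lt (X, Y))) :
    ¬ (X = -1 ∧ -1 ≤ Y ∧ Y < h - 1) ∧ ¬ (X = w + 1 ∧ -1 ≤ Y ∧ Y < h) ∧
      ¬ (Y = h - 1 ∧ 0 ≤ X ∧ X ≤ w) ∧ lt (X, Y) ∉ WlU w h S K false := by
  have hw := O.hw
  have w2 := O.w2
  unfold av at hav
  rw [if_neg (show ¬ (id false = true) from Bool.false_ne_true), mem_union, mem_union, mem_union,
    TF_U_false, mem_TiU, mem_W_up] at hav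
  obtain ⟨hA, hB⟩ := not_or.1 hav
  obtain ⟨h1, h2⟩ := not_or.1 hA
  obtain ⟨h3, h4⟩ := not_or.1 hB
  refine ⟨fun h5 => h1 (Or.inl h5), fun h5 => h1 (Or.inr (Or.inr (Or.inr (Or.inl h5)))), ?_, h4⟩
  rintro ⟨h5, h6, h7⟩
  subst h5
  have hr : ¬ ((X = 0 ∨ X = w - 1) ∧ h - 1 = h - 1) := by
    intro h8
    apply h4
    unfold WlU
    rw [if_neg Bool.false_ne_true, mem_union]
    first
      | exact Or.inr (mem_sdiff.2 ⟨mem_RRU.2 h8, h2⟩)
      | exact Or.inr (mem_insert_of_mem (mem_sdiff.2 ⟨mem_RRU.2 h8, h2⟩))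
  by_cases h9 : X = w
  · exact h1 (Or.inr (Or.inl ⟨h9, rfl⟩))
  · rcases Int.emod_two_eq_zero_or_one X with h8 | h8
    · exact h3 ⟨rfl, by omega, by omega, h8⟩
    · exact h1 (Or.inr (Or.inr (Or.inr (Or.inr (Or.inl ⟨rfl, by omega, by omega, h8⟩)))))

/-- **The marked corner NE of the upper form.** -/
theorem cnr_up (hS : S ⊆ RRU w h) (hm : 1 ≤ m) (hmw : m < w) (hmh : m < h)
    (hB : LLU w h m ⊆ B) :
    Cnr (WT w h h O.Wo ∪ S) (RT 0 w (-1) (h - 1)) B (TTU w h) (fmU w) id (WlU w h S K)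
      (LaU w h m) (LbU w h m) (bU w) (oU w) (LLU w h m) false true (-1) (w - h + 1) (w + h - 1) m
      (2 * h) (2 * w) where
  hε := Or.inr rfl
  hh := hm
  Um0 := by omega
  Vm0 := by omega
  col := rfl
  LB := hB
  Lr := by
    intro l hl
    unfold LLU at hl
    have ho : (l.1 + l.2) % 2 = 1 := by
      rcases mem_union.1 hl with h1 | h1 <;> exact odd_RT h1
    obtain ⟨X, Y, rfl⟩ := exists_lt ho
    rw [mem_union, lt_mem_RT, lt_mem_RT] at hl
    rw [cU_up, cV_up]
    omega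
  laL := by
    unfold LaU LLU; rw [if_neg Bool.false_ne_true]; exact subset_union_right
  laF := by
    unfold LaU LLU; rw [if_pos rfl]; exact subset_union_left
  LΛL := by
    unfold LbU; rw [if_neg Bool.false_ne_true]; exact subset_union_left
  LΛF := by
    unfold LbU; rw [if_pos rfl]; exact subset_union_left
  ΛL := by
    intro l hl
    unfold LbU LLU at hl
    rw [if_neg Bool.false_ne_true] at hl
    have ho : (l.1 + l.2) % 2 = 1 := by
      rcases mem_union.1 hl with h1 | h1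
      · rcases mem_union.1 h1 with h2 | h2 <;> exact odd_RT h2
      · exact odd_RT h1
    obtain ⟨X, Y, rfl⟩ := exists_lt ho
    rw [mem_union, mem_union, lt_mem_RT, lt_mem_RT, lt_mem_RT] at hl
    rw [cU_up, cV_up]
    omega
  ΛF := by
    intro l hl
    unfold LbU LLU at hl
    rw [if_pos rfl] at hl
    have ho : (l.1 + l.2) % 2 = 1 := by
      rcases mem_union.1 hl with h1 | h1
      · rcases mem_union.1 h1 with h2 | h2 <;> exact odd_RT h2
      · exact odd_RT h1
    obtain ⟨X, Y, rfl⟩ := exists_lt ho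
    rw [mem_union, mem_union, lt_mem_RT, lt_mem_RT, lt_mem_RT] at hl
    rw [cU_up, cV_up]
    omega
  dL := by
    rw [TF_U_false, disjoint_left]
    intro l h1 h2
    obtain ⟨X, Y, rfl⟩ := exists_lt (odd_TiU h2)
    unfold LbU LLU at h1
    rw [if_neg Bool.false_ne_true, mem_union, mem_union, lt_mem_RT, lt_mem_RT, lt_mem_RT] at h1
    rw [mem_TiU] at h2
    omega
  dF := by
    rw [TF_U_true, disjoint_left]
    intro l h1 h2
    obtain ⟨X, Y, rfl⟩ := exists_lt (odd_TiR h2)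
    unfold LbU LLU at h1
    rw [if_pos rfl, mem_union, mem_union, lt_mem_RT, lt_mem_RT, lt_mem_RT] at h1
    rw [mem_TiR] at h2
    omega
  tL := by
    intro e he
    rw [TF_U_false] at he
    obtain ⟨e1, e2⟩ := bU_ceil he
    rw [e1, e2]
    obtain ⟨X, Y, rfl⟩ := exists_lt (odd_TiU he)
    rw [mem_TiU] at he
    have hh2 := O.h2
    have w2 := O.w2
    have ho : (X + Y) % 2 = 1 := by omega
    have g1 : ev (X, Y) = false := ev_false.2 (by omega)
    have g2 : ev (X + 1, Y + 1) = false := ev_false.2 (by omega)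
    rw [pt_lt, pt_lt, add_zero, add_zero]
    show _ ∧ _ = el false _ _ ∧ cU (-1) (w - h + 1) (w + h - 1) (nd false _) = 0 ∧
      1 ≤ cV (-1) (w - h + 1) (w + h - 1) (nd false _) ∧ _ ∧
      cU (-1) (w - h + 1) (w + h - 1) (nd false _) = -2
    rw [nU_up g1, nV_up g1, nU_up g2, cU_up, el_false]
    refine ⟨(face_odd ho).1, ?_, ?_, ?_, ?_, ?_⟩
    · rw [(face_odd ho).2, add_sub_cancel_right]
    · simp only; omega
    · simp only; omega
    · omega
    · simp only; omega
  tLm := by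
    intro e he
    rw [TF_U_false] at he
    obtain ⟨e1, e2⟩ := bU_ceil he
    rw [e1, e2]
    obtain ⟨X, Y, rfl⟩ := exists_lt (odd_TiU he)
    rw [mem_TiU] at he
    have hh2 := O.h2
    have w2 := O.w2
    have g1 : ev (X, Y) = false := ev_false.2 (by omega)
    have g2 : ev (X + 1, Y + 1) = false := ev_false.2 (by omega)
    rw [pt_lt, pt_lt, add_zero, add_zero]
    show cV (-1) (w - h + 1) (w + h - 1) (nd false _) ≤ _ ∧ _ ∧
      cV (-1) (w - h + 1) (w + h - 1) (nd false _) ≤ _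
    rw [nV_up g1, nV_up g2, cV_up]
    simp only
    omega
  tF := by
    intro e he
    rw [TF_U_true] at he
    obtain ⟨e1, e2⟩ := bU_right he
    rw [e1, e2]
    obtain ⟨X, Y, rfl⟩ := exists_lt (odd_TiR he)
    rw [mem_TiR] at he
    have w2 := O.w2
    have ho : (X + Y) % 2 = 1 := by omega
    have g1 : ev (X, Y + 1) = true := ev_true.2 (by omega)
    have g2 : ev (X + 1, Y) = true := ev_true.2 (by omega)
    rw [pt_lt, pt_lt, add_zero, add_zero]
    show _ ∧ _ = el true _ _ ∧ cV (-1) (w - h + 1) (w + h - 1) (nd true _) = 0 ∧ _ ∧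
      cV (-1) (w - h + 1) (w + h - 1) (nd true _) = -2
    rw [nV_up g1, nV_up g2, cV_up, el_true]
    refine ⟨(vert_odd ho).1, ?_, ?_, ?_, ?_⟩
    · rw [(vert_odd ho).2]
    · simp only; omega
    · omega
    · simp only; omega
  tFm := by
    intro e he
    rw [TF_U_true] at he
    obtain ⟨e1, e2⟩ := bU_right he
    rw [e1, e2]
    obtain ⟨X, Y, rfl⟩ := exists_lt (odd_TiR he)
    rw [mem_TiR] at he
    have w2 := O.w2
    have g1 : ev (X, Y + 1) = true := ev_true.2 (by omega)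
    have g2 : ev (X + 1, Y) = true := ev_true.2 (by omega)
    rw [pt_lt, pt_lt, add_zero, add_zero]
    show cU (-1) (w - h + 1) (w + h - 1) (nd true _) ≤ _ ∧ _ ∧
      cU (-1) (w - h + 1) (w + h - 1) (nd true _) ≤ _
    rw [nU_up g1, nU_up g2, cU_up]
    simp only
    omega
  exL := by
    intro x y hu hx hav
    obtain ⟨g, hg, rfl⟩ := node_exists false x
    obtain ⟨X, Y, h2, h3, h4⟩ := el_adj hg hu
    have hr := VN_ceil O.w2 O.h2 hm (Subset.refl _) hg hx
    change av _ _ _ _ _ _ _ (el false (gp g) y) at hav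
    change el false (gp g) y ∈ _ ∨ ∃ q, IsUnit4 (q - nd false (gp g)) ∧ _
    rw [h2] at hav ⊢
    obtain ⟨a1, a2, a3, -⟩ := av_ceil hav
    have hw := O.hw
    have w2 := O.w2
    have hh2 := O.h2
    obtain ⟨g1, g2⟩ := g
    rw [ev_false] at hg
    simp only at h3 h4 hr
    by_cases hin : lt (X, Y) ∈ LbU w h m false
    · exact Or.inl hin
    · right
      unfold LbU LLU at hin
      rw [if_neg Bool.false_ne_true, mem_union, mem_union, lt_mem_RT, lt_mem_RT, lt_mem_RT] at hin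
      by_cases hX : X = -1 ∧ Y = h - 1
      · refine ⟨lt (-1, h - 2), adj_unit (ev_false.2 hg) ?_ ?_, ?_⟩
        · simp only; omega
        · simp only; omega
        · unfold FarP
          rw [cU_up, cV_up]
          omega
      · refine ⟨lt (X, Y), adj_unit (ev_false.2 hg) h3 h4, ?_⟩
        unfold FarP
        rw [cU_up, cV_up]
        omega
  exF := by
    intro x y hu hx hav
    obtain ⟨g, hg, rfl⟩ := node_exists true x
    obtain ⟨X, Y, h2, h3, h4⟩ := el_adj hg hu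
    have hr := VN_right O.w2 hm (Subset.refl _) hg hx
    change av _ _ _ _ _ _ _ (el true (gp g) y) at hav
    change el true (gp g) y ∈ _ ∨ ∃ q, IsUnit4 (q - nd true (gp g)) ∧ _
    rw [h2] at hav ⊢
    have ha := av_right hS hav
    have hw := O.hw
    by_cases hin : lt (X, Y) ∈ LbU w h m true
    · exact Or.inl hin
    · right
      refine ⟨lt (X, Y), adj_unit hg h3 h4, ?_⟩
      unfold LbU LLU at hin
      rw [if_pos rfl, mem_union, mem_union, lt_mem_RT, lt_mem_RT, lt_mem_RT] at hin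
      unfold FarP
      rw [cU_up, cV_up]
      omega

/-- **The marked corner NE of the upper form**, small layers. The closed tile `(-1, h-1)` must belong
to the wall of the ceiling. -/
theorem cnrM_up (hS : S ⊆ RRU w h) (hm : 1 ≤ m) (hmw : m < w) (hmh : m < h)
    (hK : lt (-1, h - 1) ∈ WlU w h S K false) :
    CnrM (WT w h h O.Wo ∪ S) (RT 0 w (-1) (h - 1)) (TTU w h) (fmU w) id (WlU w h S K)
      (LaU w h m) (bU w) (LLU w h m) false true (-1) (w - h + 1) (w + h - 1) m where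
  laL := by
    intro l hl h1
    unfold LLU at hl
    have ho : (l.1 + l.2) % 2 = 1 := by
      rcases mem_union.1 hl with h1 | h1 <;> exact odd_RT h1
    obtain ⟨X, Y, rfl⟩ := exists_lt ho
    rw [mem_union, lt_mem_RT, lt_mem_RT] at hl
    rw [cU_up] at h1
    unfold LaU
    rw [if_neg Bool.false_ne_true, lt_mem_RT]
    omega
  laF := by
    intro l hl h1
    unfold LLU at hl
    have ho : (l.1 + l.2) % 2 = 1 := by
      rcases mem_union.1 hl with h1 | h1 <;> exact odd_RT h1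
    obtain ⟨X, Y, rfl⟩ := exists_lt ho
    rw [mem_union, lt_mem_RT, lt_mem_RT] at hl
    rw [cV_up] at h1
    unfold LaU
    rw [if_pos rfl, lt_mem_RT]
    omega
  fullL := by
    intro x h1 h2 h3
    obtain ⟨g, hg, rfl⟩ := node_exists false x
    change cU (-1) (w - h + 1) (w + h - 1) (nd false _) = 0 at h1
    change 1 ≤ cV (-1) (w - h + 1) (w + h - 1) (nd false _) at h2
    change cV (-1) (w - h + 1) (w + h - 1) (nd false _) ≤ _ at h3
    rw [nU_up hg] at h1
    rw [nV_up hg] at h2 h3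
    have hh2 := O.h2
    have w2 := O.w2
    obtain ⟨a, b⟩ := g
    rw [ev_false] at hg
    simp only at h1 h2 h3
    have hmem : lt (a, h - 1) ∈ TiU w h := mem_TiU.2 (by omega)
    refine ⟨lt (a, h - 1), by rw [TF_U_false]; exact hmem, ?_⟩
    rw [(bU_ceil hmem).1, pt_lt, add_zero, add_zero]
    refine congrArg gp (Prod.ext ?_ ?_) <;> simp only <;> omega
  fullF := by
    intro x h1 h2 h3
    obtain ⟨g, hg, rfl⟩ := node_exists true x
    change cV (-1) (w - h + 1) (w + h - 1) (nd true _) = 0 at h1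
    change 0 ≤ cU (-1) (w - h + 1) (w + h - 1) (nd true _) at h2
    change cU (-1) (w - h + 1) (w + h - 1) (nd true _) ≤ _ at h3
    rw [nV_up hg] at h1
    rw [nU_up hg] at h2 h3
    have hh2 := O.h2
    have w2 := O.w2
    obtain ⟨a, b⟩ := g
    rw [ev_true] at hg
    simp only at h1 h2 h3
    have hmem : lt (w, b - 1) ∈ TiR w h := mem_TiR.2 (by omega)
    refine ⟨lt (w, b - 1), by rw [TF_U_true]; exact hmem, ?_⟩
    rw [(bU_right hmem).1, pt_lt, add_zero]
    refine congrArg gp (Prod.ext ?_ ?_) <;> simp only <;> omega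
  exL := by
    intro x y hu hx hav
    obtain ⟨g, hg, rfl⟩ := node_exists false x
    obtain ⟨X, Y, h2, h3, h4⟩ := el_adj hg hu
    have hw := O.hw
    have hh2 := O.h2
    have w2 := O.w2
    have hr : 0 ≤ g.1 ∧ g.1 ≤ w ∧ h - 1 - m ≤ g.2 ∧ g.2 ≤ h - 1 := by
      rcases hx with ⟨e, he, h1⟩ | ⟨q, hq, h1⟩
      · rw [TF_U_false] at he
        rw [(bU_ceil he).1] at h1
        obtain ⟨X, Y, rfl⟩ := exists_lt (odd_TiU he)
        rw [mem_TiU] at he
        rw [pt_lt, add_zero, add_zero] at h1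
        have h2 := gp_inj (g := (X, Y)) (g' := g) (by rw [hg, ev_false]; omega) h1
        subst h2
        simp only; omega
      · obtain ⟨X, Y, h2, h3, h4⟩ := el_adj (c := false) hg hq
        change el false (gp g) q ∈ _ at h1
        rw [h2] at h1
        unfold LaU at h1
        rw [if_neg Bool.false_ne_true, lt_mem_RT] at h1
        omega
    change av _ _ _ _ _ _ _ (el false (gp g) y) at hav
    change el false (gp g) y ∈ _ ∨ 2 * m ≤ cU (-1) (w - h + 1) (w + h - 1) (nd false (gp g)) ∨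
      cV (-1) (w - h + 1) (w + h - 1) (nd false (gp g)) = 0
    rw [h2] at hav ⊢
    obtain ⟨a1, a2, a3, a4⟩ := av_ceil hav
    have a5 : ¬ (X = -1 ∧ Y = h - 1) := by
      rintro ⟨rfl, rfl⟩; exact a4 hK
    unfold LaU
    rw [if_neg Bool.false_ne_true, lt_mem_RT, nU_up hg, nV_up hg]
    omega
  exF := by
    intro x y hu hx hav
    obtain ⟨g, hg, rfl⟩ := node_exists true x
    obtain ⟨X, Y, h2, h3, h4⟩ := el_adj hg hu
    have hw := O.hw
    have hh2 := O.h2
    have w2 := O.w2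
    have hr : w - m ≤ g.1 ∧ g.1 ≤ w ∧ -1 ≤ g.2 ∧ g.2 ≤ h - 1 := by
      rcases hx with ⟨e, he, h1⟩ | ⟨q, hq, h1⟩
      · rw [TF_U_true] at he
        rw [(bU_right he).1] at h1
        obtain ⟨X, Y, rfl⟩ := exists_lt (odd_TiR he)
        rw [mem_TiR] at he
        rw [pt_lt, add_zero] at h1
        have h2 := gp_inj (g := (X, Y + 1)) (g' := g) (by rw [hg, ev_true]; omega) h1
        subst h2
        simp only; omega
      · obtain ⟨X, Y, h2, h3, h4⟩ := el_adj (c := true) hg hq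
        change el true (gp g) q ∈ _ at h1
        rw [h2] at h1
        unfold LaU at h1
        rw [if_pos rfl, lt_mem_RT] at h1
        omega
    change av _ _ _ _ _ _ _ (el true (gp g) y) at hav
    change el true (gp g) y ∈ _ ∨ 2 * m ≤ cV (-1) (w - h + 1) (w + h - 1) (nd true (gp g)) ∨
      (cU (-1) (w - h + 1) (w + h - 1) (nd true (gp g)) = 0 ∧
        1 ≤ cV (-1) (w - h + 1) (w + h - 1) (nd true (gp g)))
    rw [h2] at hav ⊢
    have ha := av_right hS hav
    obtain ⟨g1, g2⟩ := g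
    rw [ev_true] at hg
    unfold LaU
    rw [if_pos rfl, lt_mem_RT, nU_up (ev_true.2 hg), nV_up (ev_true.2 hg)]
    simp only at h3 h4 hr ⊢
    omega

end Pool.Agent.H54.R45
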