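import Mathlib
import Pool.Agent.Q1.M6e.Pieces
import Pool.Agent.H59.Q1.PairM
import Pool.Agent.H54.R45.CnrA
import Pool.Agent.H39.R45.View45

set_option autoImplicit false
open Finset

/-!
# The four walls with ties of `datJ` as walls of helper59's theorems

`x0J`, `NJ` : first wall vertex and length of the family `i` of the environment `top`. `fwJ`, `wallQJ`,
`sepJ`, `lenJ`, `corJ_low`, `corJ_up`, `endJ` : the geometric hypotheses.
-/

namespace Pool.Agent.H54.R45

open Pool.Agent.H75.Perc Pool.Agent.H75.TwoArm Pool.Agent.Q1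
open Pool.Agent.H75.Four Pool.Agent.H69.Q1 Pool.Agent.H74.R45 Pool.Agent.H13.Q1
open Pool.Agent.H60.Q1 Pool.Agent.H99.NC Pool.Agent.H13.R45
open Pool.Agent.Q1.M6e
open Pool.Agent.H33.Q1 hiding wp
open Pool.Agent.H39.Q1 (gm gm_gm sgb lm lm_apply mem_lm gmE mem_gmE TF mem_TF gr cU cV nd gm_inj)
open Pool.Agent.H39.R45 (FW vpi vpi_odd)
open Pool.Agent.H59.Q1 (Wall WallQ FamQ Sep EE Tt CQ vw Fb mem_Fb flb mem_pull)

/-- the coordinates -/
def epJ (top i : Bool) : Bool × Bool :=
  match top, i with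
  | false, true => (false, false)
  | false, false => (true, false)
  | true, true => (true, true)
  | true, false => (false, true)

/-- the layers -/
noncomputable def LaJ (w h m : ℤ) (top i : Bool) : Finset (ℤ × ℤ) :=
  match top with
  | false => LaL w h m i
  | true => LaU w h m i

/-- the layers in the coordinates -/
noncomputable def LxJ (w h m : ℤ) (top i : Bool) : Finset (ℤ × ℤ) :=
  (LaJ w h m top i).map (lm i (epJ top i))

/-- first wall vertex in the coordinates -/
def x0J (w h : ℤ) (top i : Bool) : ℤ × ℤ :=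
  match top, i with
  | false, true => (1 - h / 2, h / 2 - 1)
  | false, false => (-(w / 2), w / 2)
  | true, true => (-(w / 2), -(w / 2))
  | true, false => (2 - h / 2, -1 - h / 2)

/-- the last wall vertex is `wp 1 (x0J ..) (NJ ..)` -/
def NJ (w h : ℤ) (top i : Bool) : ℤ :=
  match top, i with
  | false, true => h / 2 - 2
  | false, false => w / 2 - 1
  | true, true => h / 2 - 1
  | true, false => w / 2 - 2

/-- the ties of one family -/
noncomputable def TiJ (w h : ℤ) (top i : Bool) : Finset (ℤ × ℤ) :=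
  match top, i with
  | false, true => TiL h 0
  | false, false => TiF w
  | true, true => TiR w h
  | true, false => TiU w h

/-- inner ends -/
def bJ (w : ℤ) (top : Bool) : ℤ × ℤ → ℤ × ℤ :=
  match top with
  | false => bL
  | true => bU w

section defs

variable {w h m L : ℤ} {O : Out w h} {top i : Bool} {S : Finset (ℤ × ℤ)} {hS : S ⊆ RRJ w h top}

theorem datJ_La : (datJ O m L top S hS).La = LaJ w h m top := by
  cases top <;> rfl

theorem datJ_ep : (datJ O m L top S hS).ε i = epJ top i := by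
  cases top <;> cases i <;> rfl

theorem datJ_Lx : Lx id (datJ O m L top S hS).La i ((datJ O m L top S hS).ε i) = LxJ w h m top i := by
  rw [datJ_La, datJ_ep]; rfl

theorem datJ_TF : TF (datJ O m L top S hS).TT (datJ O m L top S hS).fm i = TiJ w h top i := by
  cases top <;> cases i
  · exact TF_L_false
  · exact TF_L_true
  · exact TF_U_false
  · exact TF_U_true

theorem datJ_b : (datJ O m L top S hS).b = bJ w top := by
  cases top <;> rfl

end defs

/-! ### Membership -/

theorem mem_RTo {x0 x1 y0 y1 : ℤ} {e : ℤ × ℤ} : e ∈ RT x0 x1 y0 y1 ↔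
    (e.1 + e.2) % 2 = 1 ∧ (2 * x0 + 1 ≤ e.1 + e.2 ∧ e.1 + e.2 ≤ 2 * x1 - 1) ∧
      (2 * y0 + 1 ≤ e.2 - e.1 ∧ e.2 - e.1 ≤ 2 * y1 - 1) := by
  constructor
  · intro h
    obtain ⟨x, y, rfl⟩ := exists_lt (odd_RT h)
    rw [lt_mem_RT] at h
    unfold lt
    simp only
    omega
  · rintro ⟨h1, h2, h3⟩
    obtain ⟨x, y, rfl⟩ := exists_lt h1
    rw [lt_mem_RT]
    unfold lt at h2 h3
    simp only at h2 h3
    omega

section walls

variable {w h m D : ℤ} {top i : Bool} {l e : ℤ × ℤ} {t : ℤ}

/-- lower and upper end of `l.1 + l.2` and of `l.2 - l.1` in the layer -/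
def loS (w h : ℤ) (top i : Bool) : ℤ :=
  match top, i with
  | false, _ => 1
  | true, true => 1 - 2 * w
  | true, false => 3 - 2 * h

def hiS (w h m : ℤ) (top i : Bool) : ℤ :=
  match top, i with
  | false, _ => 2 * m - 1
  | true, true => 2 * m - 2 * w - 1
  | true, false => 2 * m - 2 * h + 1

def loT (w h : ℤ) (top i : Bool) : ℤ :=
  match top, i with
  | false, true => 1
  | false, false => 3
  | true, true => 3 - 2 * h
  | true, false => - 2 * w - 1

def hiT (w h : ℤ) (top i : Bool) : ℤ :=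
  match top, i with
  | false, true => 2 * h - 1
  | false, false => 2 * w + 1
  | true, true => 1
  | true, false => -3

/-- the layer in the coordinates, explicitly -/
theorem mem_LxJ : l ∈ LxJ w h m top i ↔ (l.1 + l.2) % 2 = 1 ∧
    (loS w h top i ≤ l.1 + l.2 ∧ l.1 + l.2 ≤ hiS w h m top i) ∧
    (loT w h top i ≤ l.2 - l.1 ∧ l.2 - l.1 ≤ hiT w h top i) := by
  unfold LxJ
  rw [mem_lm]
  obtain ⟨a, b⟩ := l
  cases top <;> cases i <;> unfold LaJ epJ gm sgb H39.Q1.tc loS hiS loT hiT <;>
    simp only [LaL, LaU, Bool.false_eq_true, if_false, if_true, Prod.mk_sub_mk, mem_RTo] <;> omega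


/-- **The layer is a full straight wall between two quadrant corners.** -/
theorem wallQ_J (w2 : w % 2 = 0) (h2 : h % 2 = 0) (hm : 2 * D ≤ m) (hw : 2 * D + 4 ≤ w)
    (hh : 2 * D + 4 ≤ h) : WallQ (LxJ w h m top i) (x0J w h top i) (NJ w h top i) D where
  wall := by
    refine ⟨Or.inr rfl, fun l hl => (mem_LxJ.1 hl).1, ?_⟩
    intro t r h0 h1 h2 h3 l hl
    rw [mem_LxJ]
    unfold BR at hl
    rw [mem_Bx] at hl
    revert h2 hl
    cases top <;> cases i <;> unfold wp ht x0J NJ loS hiS loT hiT <;> simp only <;> omega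
  DN := by
    cases top <;> cases i <;> unfold NJ <;> simp only <;> omega
  c0 := by
    refine ⟨match top, i with
      | false, true => -h
      | false, false => -(w + 1)
      | true, true => -1
      | true, false => 1, Or.inl ⟨rfl, rfl⟩, ?_, ?_⟩
    · intro l hl
      rw [mem_LxJ]
      unfold BR at hl
      rw [mem_Bx] at hl
      revert hl
      cases top <;> cases i <;> unfold wp ht x0J loS hiS loT hiT <;> simp only <;> omega
    · cases top <;> cases i <;> unfold wp x0J <;> simp only <;> omega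
  c1 := by
    refine ⟨match top, i with
      | false, true => 0
      | false, false => 1
      | true, true => -(h - 1)
      | true, false => -(w + 1), Or.inr ⟨rfl, rfl⟩, ?_, ?_⟩
    · intro l hl
      rw [mem_LxJ]
      unfold BR at hl
      rw [mem_Bx] at hl
      revert hl
      cases top <;> cases i <;> unfold wp ht x0J NJ loS hiS loT hiT <;> simp only <;> omega
    · cases top <;> cases i <;> unfold wp x0J NJ <;> simp only <;> omega

/-- inner ends of the ties -/
theorem bJ_wp (w2 : w % 2 = 0) (h2 : h % 2 = 0) (he : e ∈ TiJ w h top i) :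
    ∃ t, (0 ≤ t ∧ t ≤ NJ w h top i) ∧ gm (epJ top i) (bJ w top e) = wp 1 (x0J w h top i) t := by
  cases top <;> cases i
  · change e ∈ TiF w at he
    obtain ⟨e1, -⟩ := bL_floor he
    obtain ⟨x, y, rfl⟩ := exists_lt (odd_TiF he)
    rw [mem_TiF] at he
    refine ⟨w / 2 - 1 - x / 2, ?_, ?_⟩
    · unfold NJ; simp only; omega
    · unfold bJ
      simp only
      rw [e1, pt_lt]
      unfold gm epJ sgb gp wp x0J
      simp only [Bool.false_eq_true, if_false, if_true, Prod.mk.injEq]
      omega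
  · change e ∈ TiL h 0 at he
    obtain ⟨e1, -⟩ := bL_left he
    obtain ⟨x, y, rfl⟩ := exists_lt (odd_TiL he)
    rw [mem_TiL] at he
    refine ⟨h / 2 - 1 - y / 2, ?_, ?_⟩
    · unfold NJ; simp only; omega
    · unfold bJ
      simp only
      rw [e1, pt_lt]
      unfold gm epJ sgb gp wp x0J
      simp only [Bool.false_eq_true, if_false, Prod.mk.injEq]
      omega
  · change e ∈ TiU w h at he
    obtain ⟨e1, -⟩ := bU_ceil he
    obtain ⟨x, y, rfl⟩ := exists_lt (odd_TiU he)
    rw [mem_TiU] at he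
    refine ⟨x / 2 - 1, ?_, ?_⟩
    · unfold NJ; simp only; omega
    · unfold bJ
      simp only
      rw [e1, pt_lt]
      unfold gm epJ sgb gp wp x0J
      simp only [Bool.false_eq_true, if_false, if_true, Prod.mk.injEq]
      omega
  · change e ∈ TiR w h at he
    obtain ⟨e1, -⟩ := bU_right he
    obtain ⟨x, y, rfl⟩ := exists_lt (odd_TiR he)
    rw [mem_TiR] at he
    refine ⟨(y + 1) / 2, ?_, ?_⟩
    · unfold NJ; simp only; omega
    · unfold bJ
      simp only
      rw [e1, pt_lt]
      unfold gm epJ sgb gp wp x0J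
      simp only [if_true, Prod.mk.injEq]
      omega


/-- every wall vertex is an inner end -/
theorem wp_bJ (w2 : w % 2 = 0) (h2 : h % 2 = 0) (ht0 : 0 ≤ t) (htN : t ≤ NJ w h top i) :
    ∃ e ∈ TiJ w h top i, gm (epJ top i) (bJ w top e) = wp 1 (x0J w h top i) t := by
  cases top <;> cases i <;> unfold NJ at htN <;> simp only at htN
  · have hmem : lt (w - 2 - 2 * t, -1) ∈ TiF w := mem_TiF.2 (by omega)
    refine ⟨_, hmem, ?_⟩
    unfold bJ
    simp only
    rw [(bL_floor hmem).1, pt_lt]
    unfold gm epJ sgb gp wp x0J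
    simp only [Bool.false_eq_true, if_false, if_true, Prod.mk.injEq]
    omega
  · have hmem : lt (-1, h - 2 - 2 * t) ∈ TiL h 0 := mem_TiL.2 (by omega)
    refine ⟨_, hmem, ?_⟩
    unfold bJ
    simp only
    rw [(bL_left hmem).1, pt_lt]
    unfold gm epJ sgb gp wp x0J
    simp only [Bool.false_eq_true, if_false, Prod.mk.injEq]
    omega
  · have hmem : lt (2 * t + 2, h - 1) ∈ TiU w h := mem_TiU.2 (by omega)
    refine ⟨_, hmem, ?_⟩
    unfold bJ
    simp only
    rw [(bU_ceil hmem).1, pt_lt]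
    unfold gm epJ sgb gp wp x0J
    simp only [Bool.false_eq_true, if_false, if_true, Prod.mk.injEq]
    omega
  · have hmem : lt (w, 2 * t - 1) ∈ TiR w h := mem_TiR.2 (by omega)
    refine ⟨_, hmem, ?_⟩
    unfold bJ
    simp only
    rw [(bU_right hmem).1, pt_lt]
    unfold gm epJ sgb gp wp x0J
    simp only [if_true, Prod.mk.injEq]
    omega

/-- the tie at the wall vertex `t` -/
def tpJ (w h : ℤ) (top i : Bool) (t : ℤ) : ℤ × ℤ :=
  match top, i with
  | false, true => lt (-1, h - 2 - 2 * t)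
  | false, false => lt (w - 2 - 2 * t, -1)
  | true, true => lt (w, 2 * t - 1)
  | true, false => lt (2 * t + 2, h - 1)

/-- position of a tie from its inner end -/
theorem tie_pos (w2 : w % 2 = 0) (h2 : h % 2 = 0) (he : e ∈ TiJ w h top i)
    (hb : gm (epJ top i) (bJ w top e) = wp 1 (x0J w h top i) t) : e = tpJ w h top i t := by
  unfold tpJ
  cases top <;> cases i
  · change e ∈ TiF w at he
    obtain ⟨e1, -⟩ := bL_floor he
    obtain ⟨x, y, rfl⟩ := exists_lt (odd_TiF he)
    rw [mem_TiF] at he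
    unfold bJ at hb
    simp only at hb ⊢
    rw [e1, pt_lt] at hb
    unfold gm epJ sgb gp wp x0J at hb
    simp only [Bool.false_eq_true, if_false, if_true, Prod.mk.injEq] at hb
    unfold lt
    refine Prod.ext ?_ ?_ <;> simp only <;> omega
  · change e ∈ TiL h 0 at he
    obtain ⟨e1, -⟩ := bL_left he
    obtain ⟨x, y, rfl⟩ := exists_lt (odd_TiL he)
    rw [mem_TiL] at he
    unfold bJ at hb
    simp only at hb ⊢
    rw [e1, pt_lt] at hb
    unfold gm epJ sgb gp wp x0J at hb
    simp only [Bool.false_eq_true, if_false, Prod.mk.injEq] at hb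
    unfold lt
    refine Prod.ext ?_ ?_ <;> simp only <;> omega
  · change e ∈ TiU w h at he
    obtain ⟨e1, -⟩ := bU_ceil he
    obtain ⟨x, y, rfl⟩ := exists_lt (odd_TiU he)
    rw [mem_TiU] at he
    unfold bJ at hb
    simp only at hb ⊢
    rw [e1, pt_lt] at hb
    unfold gm epJ sgb gp wp x0J at hb
    simp only [Bool.false_eq_true, if_false, if_true, Prod.mk.injEq] at hb
    unfold lt
    refine Prod.ext ?_ ?_ <;> simp only <;> omega
  · change e ∈ TiR w h at he
    obtain ⟨e1, -⟩ := bU_right he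
    obtain ⟨x, y, rfl⟩ := exists_lt (odd_TiR he)
    rw [mem_TiR] at he
    unfold bJ at hb
    simp only at hb ⊢
    rw [e1, pt_lt] at hb
    unfold gm epJ sgb gp wp x0J at hb
    simp only [if_true, Prod.mk.injEq] at hb
    unfold lt
    refine Prod.ext ?_ ?_ <;> simp only <;> omega

theorem odd_LaJ (hl : l ∈ LaJ w h m top i) : (l.1 + l.2) % 2 = 1 := by
  unfold LaJ LaL LaU at hl
  cases top <;> cases i <;>
    simp only [Bool.false_eq_true, if_false, if_true] at hl <;> exact odd_RT hl

end walls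

/-! ### The structures -/

section main

variable {w h m L D : ℤ} {O : Out w h} {top i j : Bool} {S : Finset (ℤ × ℤ)}
  {hS : S ⊆ RRJ w h top}

/-- **(1)** the inner ends of the ties are exactly the wall vertices -/
theorem fw_J : FW (datJ O m L top S hS).TT (datJ O m L top S hS).fm (datJ O m L top S hS).b
    ((datJ O m L top S hS).La i) i ((datJ O m L top S hS).ε i) (x0J w h top i) (NJ w h top i) where
  odd := by
    intro l hl
    rw [datJ_La] at hl
    exact odd_LaJ hl
  wall := by
    intro e he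
    rw [datJ_TF] at he
    rw [datJ_ep, datJ_b]
    exact bJ_wp O.w2 O.h2 he
  full := by
    intro t h0 h1
    rw [datJ_TF, datJ_ep, datJ_b]
    exact wp_bJ O.w2 O.h2 h0 h1
  inj := by
    intro e he e' he' hb
    rw [datJ_TF] at he he'
    rw [datJ_b] at hb
    obtain ⟨t, -, h1⟩ := bJ_wp O.w2 O.h2 he
    have h2 := h1
    rw [hb] at h2
    rw [tie_pos O.w2 O.h2 he h1, tie_pos O.w2 O.h2 he' h2]

/-- **(2)** walls between two quadrant corners -/
theorem wallQJ (hm : 2 * D ≤ m) (hw : 2 * D + 4 ≤ w) (hh : 2 * D + 4 ≤ h) :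
    WallQ (Lx id (datJ O m L top S hS).La i ((datJ O m L top S hS).ε i)) (x0J w h top i)
      (NJ w h top i) D := by
  rw [datJ_Lx]
  exact wallQ_J O.w2 O.h2 hm hw hh

/-- **(4)** length of the walls -/
theorem lenJ (O : Out w h) : NJ w h top i ≤ max w h := by
  have := O.hw
  have := O.hh
  cases top <;> cases i <;> unfold NJ <;> simp only <;> omega


/-- position of the labels of the view near a wall vertex -/
theorem view_pos {l : ℤ × ℤ} {t r : ℤ}
    (hl : l ∈ EE 1 (Lx id (datJ O m L top S hS).La i ((datJ O m L top S hS).ε i))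
      (x0J w h top i) (NJ w h top i)) (hb : l ∈ Fb (wp 1 (x0J w h top i) t) r) :
    let p := vpi (datJ O m L top S hS).TT (datJ O m L top S hS).fm id (datJ O m L top S hS).b i
      ((datJ O m L top S hS).ε i) l
    (top = false → i = true → 4 * (h / 2 - 1 - t) - 4 * r ≤ p.2 - p.1) ∧
    (top = false → i = false → p.2 - p.1 ≤ 4 * r) ∧
    (top = true → i = true → p.2 - p.1 ≤ 4 * t + 4 * r) ∧
    (top = true → i = false → 2 * h - 2 - 4 * r ≤ p.2 - p.1) := by
  intro p
  have hF := fw_J (O := O) (m := m) (L := L) (top := top) (i := i) (S := S) (hS := hS)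
  have w2 := O.w2
  have h2 := O.h2
  rcases hF.cases hl with ⟨h3, -⟩ | ⟨e, he, h3⟩
  · have hp : p = gm (epJ top i) l - H39.Q1.tc i := by
      show vpi _ _ _ _ _ _ _ = _
      rw [vpi_odd h3, datJ_ep]
      rfl
    rw [mem_Fb] at hb
    rw [hp]
    unfold gm sgb epJ H39.Q1.tc
    unfold wp x0J at hb
    refine ⟨?_, ?_, ?_, ?_⟩ <;> rintro rfl rfl <;>
      simp only [Bool.false_eq_true, if_false, if_true, Prod.fst_sub, Prod.snd_sub] at hb ⊢ <;> omega
  · have hp : p = e := by
      show vpi _ _ _ _ _ _ _ = _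
      rw [h3, hF.vpi_tie he]
    have he' := he
    rw [datJ_TF] at he'
    obtain ⟨t', ht', h4⟩ := bJ_wp w2 h2 he'
    rw [datJ_ep, datJ_b, h4] at h3
    rw [h3, mem_Fb] at hb
    rw [hp, tie_pos w2 h2 he' h4]
    unfold wp x0J at hb
    unfold tpJ lt
    refine ⟨?_, ?_, ?_, ?_⟩ <;> rintro rfl rfl <;>
      simp only [Prod.fst_add, Prod.snd_add] at hb ⊢ <;> omega

/-- **(3)** the two families are seen in disjoint places -/
theorem sepJ (hij : i ≠ j) :
    Sep (Lx id (datJ O m L top S hS).La i ((datJ O m L top S hS).ε i)) (x0J w h top i)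
      (NJ w h top i) (vpi (datJ O m L top S hS).TT (datJ O m L top S hS).fm id
        (datJ O m L top S hS).b i ((datJ O m L top S hS).ε i))
      (Lx id (datJ O m L top S hS).La j ((datJ O m L top S hS).ε j)) (x0J w h top j)
      (NJ w h top j) (vpi (datJ O m L top S hS).TT (datJ O m L top S hS).fm id
        (datJ O m L top S hS).b j ((datJ O m L top S hS).ε j)) := by
  intro ρ1 hρ t t' h1 h2 h3 h4
  rw [disjoint_left]
  intro p hp hp'
  obtain ⟨l, hl, h5⟩ := mem_image.1 hp
  obtain ⟨l', hl', h6⟩ := mem_image.1 hp'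
  obtain ⟨a1, a2⟩ := mem_inter.1 hl
  obtain ⟨b1, b2⟩ := mem_inter.1 hl'
  have c1 := view_pos a1 a2
  have c2 := view_pos b1 b2
  simp only at c1 c2
  rw [h5] at c1
  rw [h6] at c2
  obtain ⟨c11, c12, c13, c14⟩ := c1
  obtain ⟨c21, c22, c23, c24⟩ := c2
  have hh2 := O.h2
  cases top <;> cases i <;> cases j
  · exact hij rfl
  · have e1 := c12 rfl rfl
    have e2 := c21 rfl rfl
    unfold NJ at h4
    simp only at h4
    omega
  · have e1 := c11 rfl rfl
    have e2 := c22 rfl rfl
    unfold NJ at h2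
    simp only at h2
    omega
  · exact hij rfl
  · exact hij rfl
  · have e1 := c14 rfl rfl
    have e2 := c23 rfl rfl
    unfold NJ at h4
    simp only at h4
    omega
  · have e1 := c13 rfl rfl
    have e2 := c24 rfl rfl
    unfold NJ at h2
    simp only at h2
    omega
  · exact hij rfl

/-- **(6)** the ties which are not flat are near the ends of their wall -/
theorem endJ {R' : ℤ} {e : ℤ × ℤ} (hR : 0 ≤ R')
    (he : e ∈ TF (datJ O m L top S hS).TT (datJ O m L top S hS).fm i)
    (hf : e ∉ FlJ w h R' top i) :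
    inR (wp 1 (x0J w h top i) 0) (R' + 3)
      (gm ((datJ O m L top S hS).ε i) ((datJ O m L top S hS).b e)) ∨
    inR (wp 1 (x0J w h top i) (NJ w h top i)) (R' + 3)
      (gm ((datJ O m L top S hS).ε i) ((datJ O m L top S hS).b e)) := by
  have w2 := O.w2
  have h2 := O.h2
  rw [datJ_TF] at he
  rw [datJ_ep, datJ_b]
  obtain ⟨t, ht', h4⟩ := bJ_wp w2 h2 he
  have h5 := tie_pos w2 h2 he h4
  rw [h4, inR_iff, inR_iff]
  unfold FlJ at hf
  cases top <;> cases i <;>
    simp only [Bool.false_eq_true, if_false, if_true, mem_filter, not_and] at hf <;>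
    unfold TiJ at he <;> simp only at he <;> have h6 := hf he <;> rw [h5] at h6 <;>
    unfold tpJ at h6 <;> simp only [tt_lt] at h6 <;> unfold NJ at ht' ⊢ <;>
    simp only at ht' ⊢ <;> unfold wp x0J <;> simp only <;> omega

/-- **(5)** the marked corner of the lower environment -/
theorem corJ_low (hS : S ⊆ RRJ w h false) : ∀ i, ∃ τ, (τ = 0 ∨ τ = NJ w h false i) ∧
    ∀ e ∈ TF (datJ O m L false S hS).TT (datJ O m L false S hS).fm i, ∀ ρ,
    (0 ≤ cU 1 0 0 (nd (id i) ((datJ O m L false S hS).b e)) ∧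
      cU 1 0 0 (nd (id i) ((datJ O m L false S hS).b e)) ≤ 2 * ρ) →
    (0 ≤ cV 1 0 0 (nd (id i) ((datJ O m L false S hS).b e)) ∧
      cV 1 0 0 (nd (id i) ((datJ O m L false S hS).b e)) ≤ 2 * ρ) →
    inR (wp 1 (x0J w h false i) τ) ρ
      (gm ((datJ O m L false S hS).ε i) ((datJ O m L false S hS).b e)) := by
  intro i
  refine ⟨NJ w h false i, Or.inr rfl, ?_⟩
  intro e he ρ g1 g2
  have w2 := O.w2
  have h2 := O.h2
  rw [datJ_TF] at he
  rw [datJ_b] at g1 g2 ⊢
  rw [datJ_ep]
  obtain ⟨t, ht', h4⟩ := bJ_wp w2 h2 he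
  rw [h4, inR_iff]
  obtain ⟨g, hg, h5⟩ := node_exists i (bJ w false e)
  rw [← h5] at g1 g2 h4
  have g3 : cU 1 0 0 (nd (id i) (gp g)) = 2 * g.1 := nU_low hg
  have g4 : cV 1 0 0 (nd (id i) (gp g)) = 2 * g.2 := nV_low hg
  rw [g3] at g1
  rw [g4] at g2
  obtain ⟨u, v⟩ := g
  cases i
  · rw [ev_false] at hg
    unfold gm epJ sgb gp wp x0J at h4
    unfold NJ wp x0J
    unfold NJ at ht'
    simp only [Bool.false_eq_true, if_false, if_true, Prod.mk.injEq] at h4 g1 g2 ht' ⊢
    omega
  · rw [ev_true] at hg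
    unfold gm epJ sgb gp wp x0J at h4
    unfold NJ wp x0J
    unfold NJ at ht'
    simp only [Bool.false_eq_true, if_false, Prod.mk.injEq] at h4 g1 g2 ht' ⊢
    omega

/-- **(5)** the marked corner of the upper environment -/
theorem corJ_up (hS : S ⊆ RRJ w h true) : ∀ i, ∃ τ, (τ = 0 ∨ τ = NJ w h true i) ∧
    ∀ e ∈ TF (datJ O m L true S hS).TT (datJ O m L true S hS).fm i, ∀ ρ,
    (0 ≤ cU (-1) (w - h + 1) (w + h - 1) (nd (id i) ((datJ O m L true S hS).b e)) ∧
      cU (-1) (w - h + 1) (w + h - 1) (nd (id i) ((datJ O m L true S hS).b e)) ≤ 2 * ρ) →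
    (0 ≤ cV (-1) (w - h + 1) (w + h - 1) (nd (id i) ((datJ O m L true S hS).b e)) ∧
      cV (-1) (w - h + 1) (w + h - 1) (nd (id i) ((datJ O m L true S hS).b e)) ≤ 2 * ρ) →
    inR (wp 1 (x0J w h true i) τ) ρ
      (gm ((datJ O m L true S hS).ε i) ((datJ O m L true S hS).b e)) := by
  intro i
  refine ⟨NJ w h true i, Or.inr rfl, ?_⟩
  intro e he ρ g1 g2
  have w2 := O.w2
  have h2 := O.h2
  rw [datJ_TF] at he
  rw [datJ_b] at g1 g2 ⊢
  rw [datJ_ep]
  obtain ⟨t, ht', h4⟩ := bJ_wp w2 h2 he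
  rw [h4, inR_iff]
  obtain ⟨g, hg, h5⟩ := node_exists i (bJ w true e)
  rw [← h5] at g1 g2 h4
  have g3 : cU (-1) (w - h + 1) (w + h - 1) (nd (id i) (gp g)) = 2 * (h - 1) - 2 * g.2 := nU_up hg
  have g4 : cV (-1) (w - h + 1) (w + h - 1) (nd (id i) (gp g)) = 2 * w - 2 * g.1 := nV_up hg
  rw [g3] at g1
  rw [g4] at g2
  obtain ⟨u, v⟩ := g
  cases i
  · rw [ev_false] at hg
    unfold gm epJ sgb gp wp x0J at h4
    unfold NJ wp x0J
    unfold NJ at ht'
    simp only [Bool.false_eq_true, if_false, if_true, Prod.mk.injEq] at h4 g1 g2 ht' ⊢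
    omega
  · rw [ev_true] at hg
    unfold gm epJ sgb gp wp x0J at h4
    unfold NJ wp x0J
    unfold NJ at ht'
    simp only [if_true, Prod.mk.injEq] at h4 g1 g2 ht' ⊢
    omega

end main

end Pool.Agent.H54.R45
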